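import Mathlib
import Pool.Agent.Helper20.CpDef
import Pool.Agent.Helper85.CP.Def
import Pool.Agent.Helper85.CP.Final

namespace Pool.Agent.Results.MP_188e7a_gt.LinearCondensations

open Pool.Agent.Helper85.CP

/-- Negative answer to both questions Q1 and Q2 of Arhangel'skii: there are Tychonoff spaces `X`,
`Y` with `X` sigma-compact and `Y` not sigma-compact (not even Lindelof) such that `C_p(X)` and
`C_p(Y)` condense onto each other by LINEAR condensations (continuous linear bijections). -/
theorem result :
    ∃ (X Y : Type) (_ : TopologicalSpace X) (_ : TopologicalSpace Y),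
      T35Space X ∧ T35Space Y ∧ SigmaCompactSpace X ∧ ¬ SigmaCompactSpace Y ∧
      ¬ LindelofSpace Y ∧ LinearlyCondenses X Y ∧ LinearlyCondenses Y X :=
  ⟨XX, YY, inferInstance, inferInstance, inferInstance, inferInstance, inferInstance,
    not_sigmaCompact_YY, not_lindelof_YY, ⟨Phi, Phi_continuous, Phi_bijective⟩,
    ⟨Psi, Psi_continuous, Psi_injective, Psi_surjective⟩⟩

end Pool.Agent.Results.MP_188e7a_gt.LinearCondensations
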